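import Pool.Agent.H529R3.Gap.Alt

/-!
# Equalities at the linear exponential level without equalities at the polynomial level
-/

set_option autoImplicit false

namespace Pool.Agent.TH678.EX

open Pool.Agent.NPC Pool.Agent.H620R2.Gauge Pool.Agent.H622R2.Exp Filter

theorem mainE (f : ℕ → ℝ) :
    (∀ O : Set Oracle,
      (∀ A : Oracle, (∀ L, InSpace Lin A L → InTime Lin A L) →
        (∃ L, IsNP A L ∧ ¬ WithAdvice (IsNP A) Lᶜ) → A ∈ O) →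
      (∀ A ∈ O, ∀ L, InNTime Lin A L → InTime Lin A L) →
      (Null f O ↔ ∀ ε : ℝ, 0 < ε → ∃ᶠ N : ℕ in atTop, f N ≤ (Real.logb 2 N) ^ ε)) ∧
    (Null f {A : Oracle | ∀ L, InTime Lin A L ↔ InNTime Lin A L} ↔
      ∀ ε : ℝ, 0 < ε → ∃ᶠ N : ℕ in atTop, f N ≤ (Real.logb 2 N) ^ ε) ∧
    (Null f {A : Oracle | (∀ L, InTime Lin A L ↔ InNTime Lin A L) ∧
        ¬ ∀ L, IsP A L ↔ IsNP A L} ↔
      ∀ ε : ℝ, 0 < ε → ∃ᶠ N : ℕ in atTop, f N ≤ (Real.logb 2 N) ^ ε) := by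
  have key : ∀ O : Set Oracle,
      (∀ A : Oracle, (∀ L, InSpace Lin A L → InTime Lin A L) →
        (∃ L, IsNP A L ∧ ¬ WithAdvice (IsNP A) Lᶜ) → A ∈ O) →
      (∀ A ∈ O, ∀ L, InNTime Lin A L → InTime Lin A L) →
      (Null f O ↔ ∀ ε : ℝ, 0 < ε → ∃ᶠ N : ℕ in atTop, f N ≤ (Real.logb 2 N) ^ ε) :=
    fun O h1 h2 => H529R3.Gap.gap_np f O h1 h2
  have h3 : ∀ A : Oracle, (∀ L, InSpace Lin A L → InTime Lin A L) →
      ∀ L, InTime Lin A L ↔ InNTime Lin A L :=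
    fun A hA L => ⟨fun h => h.isNTime, fun h => hA L (h.isSpace good_Lin)⟩
  refine ⟨key, key _ (fun A hA _ => h3 A hA) (fun A hA L hL => (hA L).2 hL),
    key _ (fun A hA h => ⟨h3 A hA, fun h' => ?_⟩) (fun A hA L hL => (hA.1 L).2 hL)⟩
  obtain ⟨L, h4, h5⟩ := h
  exact h5 (((h' L).2 h4).compl.isNP.withAdvice)

theorem mainS (f : ℕ → ℝ) :
    (∀ O : Set Oracle,
      (∀ A : Oracle, (∀ L, InSpace Lin A L → InTime Lin A L) →
        (∃ L, IsPSPACE A L ∧ ¬ IsPHpoly A L) → A ∈ O) →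
      (∀ A ∈ O, ∀ L, InSpace Lin A L → InAlt Lin A L) →
      (Null f O ↔ ∀ ε : ℝ, 0 < ε → ∃ᶠ N : ℕ in atTop, f N ≤ (Real.logb 2 N) ^ ε)) ∧
    (Null f {A : Oracle | ∀ L, InTime Lin A L ↔ InSpace Lin A L} ↔
      ∀ ε : ℝ, 0 < ε → ∃ᶠ N : ℕ in atTop, f N ≤ (Real.logb 2 N) ^ ε) ∧
    (Null f {A : Oracle | (∀ L, InTime Lin A L ↔ InSpace Lin A L) ∧
        ¬ ∀ L, IsPH A L ↔ IsPSPACE A L} ↔
      ∀ ε : ℝ, 0 < ε → ∃ᶠ N : ℕ in atTop, f N ≤ (Real.logb 2 N) ^ ε) := by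
  have key : ∀ O : Set Oracle,
      (∀ A : Oracle, (∀ L, InSpace Lin A L → InTime Lin A L) →
        (∃ L, IsPSPACE A L ∧ ¬ IsPHpoly A L) → A ∈ O) →
      (∀ A ∈ O, ∀ L, InSpace Lin A L → InAlt Lin A L) →
      (Null f O ↔ ∀ ε : ℝ, 0 < ε → ∃ᶠ N : ℕ in atTop, f N ≤ (Real.logb 2 N) ^ ε) := by
    intro O h1 h2
    constructor
    · intro hn
      refine (H529R3.Gap.gap_below f {A : Oracle | (∀ L, InSpace Lin A L → InTime Lin A L) ∧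
        ∃ L, IsPSPACE A L ∧ ¬ IsPHpoly A L} (fun A h3 h4 => ⟨h3, h4⟩)
        (fun A hA L hL => hA.1 L (hL.isSpace good_Lin))).1 (hn.mono fun A hA => h1 A hA.1 hA.2)
    · intro hf
      exact (Pool.Agent.H249R3.Gau.resAltE f {A : Oracle | ∀ L, InSpace Lin A L → InAlt Lin A L}
        (fun A hA L hL => (hA L hL).isNTime.isAlt) (fun A hA => hA)).2 hf |>.mono
        fun A hA => h2 A hA
  have h3 : ∀ A : Oracle, (∀ L, InSpace Lin A L → InTime Lin A L) →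
      ∀ L, InTime Lin A L ↔ InSpace Lin A L :=
    fun A hA L => ⟨fun h => h.isNTime.isSpace good_Lin, fun h => hA L h⟩
  refine ⟨key, key _ (fun A hA _ => h3 A hA) (fun A hA L hL => ((hA L).2 hL).isNTime.isAlt),
    key _ (fun A hA h => ⟨h3 A hA, fun h' => ?_⟩)
      (fun A hA L hL => ((hA.1 L).2 hL).isNTime.isAlt)⟩
  obtain ⟨L, h4, h5⟩ := h
  exact h5 (((h' L).2 h4).isPHpoly)

end Pool.Agent.TH678.EX
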